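import Mathlib
import Pool.Agent.Lib.MP_6bfc9e_al.Core

set_option autoImplicit false

namespace Pool.Agent.Results.MP_6bfc9e_al.AlgebraicallyCompactCase

open Pool.Agent.Lib.MP_6bfc9e_al

universe u v

/-- `M` is algebraically compact (equivalently, pure-injective): every system of linear equations
with coefficients in `R`, right-hand sides in `M` and arbitrarily many unknowns that is finitely
solvable in `M` is solvable in `M`. -/
def AlgebraicallyCompact (R : Type u) [Ring R] (M : Type v) [AddCommGroup M] [Module R M] :
    Prop :=
  ∀ (ι κ : Type (max u v)) (a : κ → ι →₀ R) (b : κ → M),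
    (∀ s : Finset κ, ∃ x : ι → M, ∀ k ∈ s, ((a k).sum fun i r => r • x i) = b k) →
      ∃ x : ι → M, ∀ k, ((a k).sum fun i r => r • x i) = b k

/-- A weakly injective module with essential socle that is algebraically compact
(pure-injective) is quasi-injective. -/
theorem result {R : Type u} [Ring R] {M : Type v} [AddCommGroup M] [Module R M]
    (hWI : WeaklyInjective R M) (hE : EssentialSocle R M) (hAC : AlgebraicallyCompact R M) :
    QuasiInjective R M := by
  classical
  apply quasi_of_kills_socle hWI
  intro N hN f hf
  apply extendable_of_chain hWI hE hN f ⟨0, fun x hx => by simp [hf x hx]⟩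
  intro c hne hchain hcN hcg
  -- the system of equations
  let Eq : Type (max u v) := ULift.{max u v} ((M × M) ⊕ (R × M) ⊕ {x : N // (x : M) ∈ sSup c})
  let Un : Type (max u v) := ULift.{max u v} M
  let a : Eq → Un →₀ R := fun e =>
    match e.down with
    | Sum.inl (m, m') =>
        Finsupp.single (ULift.up (m + m')) (1 : R) + Finsupp.single (ULift.up m) (-1 : R) +
          Finsupp.single (ULift.up m') (-1 : R)
    | Sum.inr (Sum.inl (r, m)) =>
        Finsupp.single (ULift.up (r • m)) (1 : R) + Finsupp.single (ULift.up m) (-r)
    | Sum.inr (Sum.inr x) => Finsupp.single (ULift.up ((x : N) : M)) (1 : R)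
  let b : Eq → M := fun e =>
    match e.down with
    | Sum.inl _ => 0
    | Sum.inr (Sum.inl _) => 0
    | Sum.inr (Sum.inr x) => f x
  have hsum_add : ∀ (x : Un → M) (p q : Un →₀ R),
      ((p + q).sum fun i r => r • x i) = (p.sum fun i r => r • x i) + (q.sum fun i r => r • x i) := by
    intro x p q
    exact Finsupp.sum_add_index' (fun i => zero_smul R (x i)) (fun i r s => add_smul r s (x i))
  have hsum_single : ∀ (x : Un → M) (i : Un) (r : R),
      ((Finsupp.single i r).sum fun i r => r • x i) = r • x i := by
    intro x i r
    exact Finsupp.sum_single_index (zero_smul R (x i))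
  have hfin : ∀ s : Finset Eq, ∃ x : Un → M, ∀ k ∈ s, ((a k).sum fun i r => r • x i) = b k := by
    intro s
    -- a member of the chain which contains all the elements occurring
    have hK : ∃ K ∈ c, ∀ k ∈ s, ∀ x : {x : N // (x : M) ∈ sSup c},
        k.down = Sum.inr (Sum.inr x) → ((x : N) : M) ∈ K := by
      induction s using Finset.induction_on with
      | empty =>
        obtain ⟨K, hK⟩ := hne
        exact ⟨K, hK, by simp⟩
      | insert k s hks ih =>
        obtain ⟨K, hKc, hK⟩ := ih
        rcases hk : k.down with p | q | x
        · refine ⟨K, hKc, ?_⟩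
          intro k' hk' x hx
          rcases Finset.mem_insert.mp hk' with rfl | h
          · rw [hk] at hx; cases hx
          · exact hK k' h x hx
        · refine ⟨K, hKc, ?_⟩
          intro k' hk' x hx
          rcases Finset.mem_insert.mp hk' with rfl | h
          · rw [hk] at hx; cases hx
          · exact hK k' h x hx
        · obtain ⟨K', hK'c, hxK'⟩ : ∃ K' ∈ c, ((x : N) : M) ∈ K' :=
            (Submodule.mem_sSup_of_directed hne hchain.directedOn).1 x.2
          rcases hchain.total hKc hK'c with hle | hle
          · refine ⟨K', hK'c, ?_⟩
            intro k' hk' x' hx'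
            rcases Finset.mem_insert.mp hk' with rfl | h
            · rw [hk] at hx'
              cases hx'
              exact hxK'
            · exact hle (hK k' h x' hx')
          · refine ⟨K, hKc, ?_⟩
            intro k' hk' x' hx'
            rcases Finset.mem_insert.mp hk' with rfl | h
            · rw [hk] at hx'
              cases hx'
              exact hle hxK'
            · exact hK k' h x' hx'
    obtain ⟨K, hKc, hK⟩ := hK
    obtain ⟨g, hg⟩ := hcg K hKc
    refine ⟨fun i => g i.down, ?_⟩
    intro k hk
    rcases hkd : k.down with ⟨m, m'⟩ | ⟨r, m⟩ | x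
    · simp only [a, b, hkd]
      rw [hsum_add, hsum_add, hsum_single, hsum_single, hsum_single]
      simp
    · simp only [a, b, hkd]
      rw [hsum_add, hsum_single, hsum_single]
      simp
    · simp only [a, b, hkd]
      rw [hsum_single, one_smul]
      exact hg x (hK k hk x hkd)
  obtain ⟨x, hx⟩ := hAC Un Eq a b hfin
  let g : M →ₗ[R] M :=
    { toFun := fun m => x (ULift.up m)
      map_add' := by
        intro m m'
        have := hx (ULift.up (Sum.inl (m, m')))
        simp only [a, b] at this
        rw [hsum_add, hsum_add, hsum_single, hsum_single, hsum_single] at this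
        simp only [one_smul, neg_smul] at this
        have h2 : x (ULift.up (m + m')) - (x (ULift.up m) + x (ULift.up m')) = 0 := by
          rw [← this]; abel
        exact sub_eq_zero.mp h2
      map_smul' := by
        intro r m
        have := hx (ULift.up (Sum.inr (Sum.inl (r, m))))
        simp only [a, b] at this
        rw [hsum_add, hsum_single, hsum_single] at this
        simp only [one_smul, neg_smul] at this
        have h2 : x (ULift.up (r • m)) - r • x (ULift.up m) = 0 := by
          rw [← this]; abel
        exact sub_eq_zero.mp h2 }
  refine ⟨g, ?_⟩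
  intro y hy
  have := hx (ULift.up (Sum.inr (Sum.inr ⟨y, hy⟩)))
  simp only [a, b] at this
  rw [hsum_single, one_smul] at this
  exact this

end Pool.Agent.Results.MP_6bfc9e_al.AlgebraicallyCompactCase
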