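import Mathlib
import Pool.Agent.Lib.MP_6bfc9e_al.FinGabriel

set_option autoImplicit false

namespace Pool.Agent.Results.MP_6bfc9e_al.FiniteOverCentre

open Pool.Agent.Lib.MP_6bfc9e_al

/-- Over a left noetherian ring, the submodules between `U` and `U + R x` have Gabriel dimension
relative to `U + R x`. -/
theorem gabrielDim_cyclic {R : Type*} [Ring R] {M : Type*} [AddCommGroup M] [Module R M]
    [IsNoetherianRing R] (U : Submodule R M) (x : M) :
    ∀ Y : Submodule R M, U ≤ Y → Y ≤ U ⊔ Submodule.span R {x} →
      GabrielDim Y (U ⊔ Submodule.span R {x}) := by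
  suffices h : ∀ (I : Submodule R R) (Y : Submodule R M),
      Y.comap (LinearMap.toSpanSingleton R M x) = I → U ≤ Y → Y ≤ U ⊔ Submodule.span R {x} →
      GabrielDim Y (U ⊔ Submodule.span R {x}) from fun Y h1 h2 => h _ Y rfl h1 h2
  intro I
  induction I using WellFoundedGT.induction with
  | ind I ih =>
    intro Y hI hUY _
    refine GabrielDim.mk Y _ (fun _ => U ⊔ Submodule.span R {x}) (fun V _ hV => ⟨hV, le_rfl⟩) ?_
    intro V hYV _ Y' hVY' hY'
    refine ih (Y'.comap (LinearMap.toSpanSingleton R M x)) ?_ Y' rfl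
      (hUY.trans (hYV.trans hVY'.le)) hY'
    rw [← hI]
    refine lt_of_le_of_ne (Submodule.comap_mono (hYV.trans hVY'.le)) ?_
    intro he
    apply not_le_of_gt hVY'
    intro y hy
    obtain ⟨u, hu, z, hz, rfl⟩ := Submodule.mem_sup.1 (hY' hy)
    obtain ⟨r, rfl⟩ := Submodule.mem_span_singleton.1 hz
    have h1 : r • x ∈ Y' := by
      have h2 := Y'.sub_mem hy ((hUY.trans (hYV.trans hVY'.le)) hu)
      rwa [add_sub_cancel_left] at h2
    have h3 : r ∈ Y.comap (LinearMap.toSpanSingleton R M x) := by
      rw [he]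
      exact h1
    exact V.add_mem (hYV (hUY hu)) (hYV h3)

/-- Every module over a left noetherian ring has Gabriel dimension. -/
theorem gabrielDim_of_noetherian {R : Type*} [Ring R] {M : Type*} [AddCommGroup M] [Module R M]
    (h : IsNoetherianRing R) : GabrielDim (⊥ : Submodule R M) ⊤ := by
  classical
  have hx : ∀ U : Submodule R M, U < ⊤ → ∃ x : M, x ∉ U := by
    intro U hU
    obtain ⟨x, _, hx⟩ := SetLike.exists_of_lt hU
    exact ⟨x, hx⟩
  choose x hx using hx
  refine GabrielDim.mk ⊥ ⊤ (fun U => if hU : U < ⊤ then U ⊔ Submodule.span R {x U hU} else ⊤) ?_ ?_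
  · intro U _ hU
    simp only [dif_pos hU]
    refine ⟨lt_of_le_of_ne le_sup_left ?_, le_top⟩
    intro he
    apply hx U hU
    have h1 : x U hU ∈ U ⊔ Submodule.span R {x U hU} :=
      (le_sup_right : Submodule.span R {x U hU} ≤ _) (Submodule.mem_span_singleton_self _)
    rwa [← he] at h1
  · intro U _ hU Y hUY hY
    simp only [dif_pos hU] at hY ⊢
    exact gabrielDim_cyclic U (x U hU) Y hUY.le hY

/-- Let `M` be a weakly injective module with essential socle.  If the ring is a finitely generated
module over its centre (for example commutative), or left noetherian, or `M` has Gabriel dimension,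
then `M` is quasi-injective.  More generally, if `N` is a submodule of `M` with `FCDim ⊥ N`, then
every homomorphism `N' → M` from a submodule `N'` of `N` extends to an endomorphism of `M`. -/
theorem result {R : Type*} [Ring R] {M : Type*} [AddCommGroup M] [Module R M]
    (hWI : WeaklyInjective R M) (hE : EssentialSocle R M) :
    ((Module.Finite (Subring.center R) R ∨ IsNoetherianRing R ∨
        GabrielDim (⊥ : Submodule R M) ⊤) → QuasiInjective R M) ∧
    ∀ N : Submodule R M, FCDim ⊥ N → ∀ N' : Submodule R M, N' ≤ N → ∀ f : N' →ₗ[R] M,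
      ∃ g : M →ₗ[R] M, ∀ x : N', g (x : M) = f x := by
  have key : ∀ N : Submodule R M, FCDim ⊥ N → ∀ N' : Submodule R M, N' ≤ N →
      ∀ f : N' →ₗ[R] M, ∃ g : M →ₗ[R] M, ∀ x : N', g (x : M) = f x :=
    fun N hN N' hN' f => extend_of_fcDim hWI hE N N' hN hN' f
  refine ⟨?_, key⟩
  rintro (h | h | h) N f
  · exact key ⊤ (FCDim.fin _ _ (finOverCenter_of_finite _ _)) N le_top f
  · exact key ⊤ (fcDim_of_gabrielDim (gabrielDim_of_noetherian h)) N le_top f
  · exact key ⊤ (fcDim_of_gabrielDim h) N le_top f

/-- A commutative ring is a finitely generated module over its centre. -/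
theorem finite_center_of_commRing (R : Type*) [CommRing R] :
    Module.Finite (Subring.center R) R := by
  refine ⟨⟨{1}, ?_⟩⟩
  rw [eq_top_iff]
  intro r _
  rw [Finset.coe_singleton, Submodule.mem_span_singleton]
  refine ⟨⟨r, Subring.mem_center_iff.2 fun s => mul_comm s r⟩, ?_⟩
  exact mul_one r

/-- The commutative case. -/
theorem quasiInjective_of_commRing {R : Type*} [CommRing R] {M : Type*} [AddCommGroup M]
    [Module R M] (hWI : WeaklyInjective R M) (hE : EssentialSocle R M) : QuasiInjective R M :=
  (result hWI hE).1 (Or.inl (finite_center_of_commRing R))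

end Pool.Agent.Results.MP_6bfc9e_al.FiniteOverCentre
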