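import Mathlib
import Pool.Agent.Lib.MP_6bfc9e_al.InvKer

set_option autoImplicit false

namespace Pool.Agent.Results.MP_6bfc9e_al.InvariantKernels

open Pool.Agent.Lib.MP_6bfc9e_al

/-- Let `M` be a weakly injective module with essential socle, over any ring.  If the kernel of
every endomorphism of `M` which vanishes on the socle is fully invariant then `M` is
quasi-injective. -/
theorem result {R : Type*} [Ring R] {M : Type*} [AddCommGroup M] [Module R M]
    (hWI : WeaklyInjective R M) (hE : EssentialSocle R M)
    (hker : ∀ y b : M →ₗ[R] M, (∀ x ∈ Socle R M, y x = 0) → ∀ x : M, y x = 0 → y (b x) = 0) :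
    QuasiInjective R M :=
  quasiInjective_of_invKer hWI hE hker

/-- In particular this holds if the endomorphism ring of `M` is commutative. -/
theorem quasiInjective_of_commEnd {R : Type*} [Ring R] {M : Type*} [AddCommGroup M] [Module R M]
    (hWI : WeaklyInjective R M) (hE : EssentialSocle R M)
    (hcomm : ∀ y b : M →ₗ[R] M, y ∘ₗ b = b ∘ₗ y) : QuasiInjective R M :=
  result hWI hE (fun y b _ x hx => by
    have h := LinearMap.congr_fun (hcomm y b) x
    change y (b x) = b (y x) at h
    rw [h, hx, map_zero])

end Pool.Agent.Results.MP_6bfc9e_al.InvariantKernels
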