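import Mathlib
import Pool.Agent.Lib.MP_6bfc9e_al.Small2

set_option autoImplicit false

namespace Pool.Agent.Results.MP_6bfc9e_al.SmallOrbits

universe u v

open Pool.Agent.Lib.MP_6bfc9e_al

/-- Let `M` be a weakly injective module with essential socle such that for every `x` in `M` the set
of the values `g x` of the endomorphisms `g` of `M` has less than continuum many elements. Then `M`
is quasi-injective. -/
theorem result {R : Type u} [Ring R] {M : Type v} [AddCommGroup M] [Module R M]
    (hWI : WeaklyInjective R M) (hE : EssentialSocle R M)
    (hc : ∀ x : M, Cardinal.mk {y : M // ∃ g : M →ₗ[R] M, g x = y} < Cardinal.continuum) :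
    QuasiInjective R M :=
  quasi_of_smallOrbits hWI hE hc

end Pool.Agent.Results.MP_6bfc9e_al.SmallOrbits
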